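import Pool.Agent.Y33.RN.Stm

/-!
# Job RB7: the homomorphism to the integers and its kernel (helper415, project RN of helper33)
-/

set_option autoImplicit false

namespace Pool.Agent.Y415.RN

open Pool.Agent.Y33.RN Pool.Agent.TH54.BU Pool.Agent.Y33.SM Pool.Agent.H17R2

/-- the integer value of `ft` -/
noncomputable def av (g : F5) : ℤ := Multiplicative.toAdd (ft g)

lemma av_one : av 1 = 0 := by simp [av]

lemma av_mul (g h : F5) : av (g * h) = av g + av h := by
  simp [av, map_mul, toAdd_mul]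

lemma av_inv (g : F5) : av g⁻¹ = - av g := by
  simp [av, map_inv, toAdd_inv]

lemma av_zpow (g : F5) (m : ℤ) : av (g ^ m) = m * av g := by
  simp [av, map_zpow, toAdd_zpow]

lemma av_of (i : Fin 5) : av (FreeGroup.of i) = if i = 0 then 1 else 0 := by
  unfold av ft
  rw [FreeGroup.lift_apply_of]
  split_ifs <;> rfl

lemma av_of_natAbs (i : Fin 5) : (av (FreeGroup.of i)).natAbs ≤ 1 := by
  rw [av_of]
  split_ifs <;> simp

lemma av_eq_zero_iff (g : F5) : av g = 0 ↔ ft g = 1 := by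
  unfold av
  exact ⟨fun h => toAdd_eq_zero.mp h, fun h => toAdd_eq_zero.mpr h⟩

variable {K : ℤ} {W : Words (Fin 5)}

lemma av_rel (h : RW K W) (b : (ℤ → Fin 5 × Bool) × ℤ) (hb : b ∈ W.B) : av (zw b.1 b.2) = 0 := by
  have h1 := h.ft0 b hb 0 (0 + 2 * b.2)
  have h2 := zp_mul_period (fun k => (FreeGroup.mk [b.1 k] : F5)) b.2
    (fun k => by rw [W.per b hb]) 2 0
  have h3 : zw b.1 (0 + 2 * b.2) = zw b.1 b.2 ^ (2 : ℤ) := by
    unfold zw
    rw [h2, zp_zero, mul_one]
  rw [h3, zw_zero, inv_one, one_mul] at h1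
  have h4 : (av (zw b.1 b.2 ^ (2 : ℤ))).natAbs ≤ 1 := h1
  rw [av_zpow] at h4
  omega

lemma av_N (h : RW K W) (g : F5) (hg : g ∈ W.toFam.N) : ft g = 1 := by
  have h1 : W.toFam.N ≤ ft.ker := by
    rw [Words.N_eq]
    apply Subgroup.normalClosure_le_normal
    rintro _ ⟨b, hb, rfl⟩
    show zw b.1 b.2 ∈ ft.ker
    rw [MonoidHom.mem_ker]
    exact (av_eq_zero_iff _).mp (av_rel h b hb)
  exact MonoidHom.mem_ker.mp (h1 hg)

lemma av_norm_le_one (g : F5) (hg : FreeGroup.norm g ≤ 1) : (av g).natAbs ≤ 1 := by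
  have h1 : g = FreeGroup.mk g.toWord := (FreeGroup.mk_toWord).symm
  have h2 : g.toWord.length ≤ 1 := hg
  rcases h3 : g.toWord with _ | ⟨⟨i, e⟩, l⟩
  · rw [h1, h3]
    have : (FreeGroup.mk ([] : List (Fin 5 × Bool)) : F5) = 1 := rfl
    rw [this, av_one]
    simp
  · rw [h3] at h2
    have hl : l = [] := by
      rcases l with _ | ⟨_, _⟩
      · rfl
      · simp at h2
    subst hl
    rw [h1, h3]
    cases e
    · have : (FreeGroup.mk [(i, false)] : F5) = (FreeGroup.of i)⁻¹ := by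
        simp [FreeGroup.of, FreeGroup.inv_mk, FreeGroup.invRev]
      rw [this, av_inv, Int.natAbs_neg]
      exact av_of_natAbs i
    · have : (FreeGroup.mk [(i, true)] : F5) = FreeGroup.of i := rfl
      rw [this]
      exact av_of_natAbs i

lemma av_Jm (h : RW K W) (g : F5) (hg : Jm W g) : (av g).natAbs ≤ 1 := by
  rcases hg with hg | ⟨x, ⟨b, hb, g0, s, ε, rfl⟩, a, a', rfl⟩
  · exact av_norm_le_one g hg
  · have h1 := h.ft0 b hb (s + sg ε * a) (s + sg ε * a')
    have h2 : (Words.ln b.1 g0 s ε a)⁻¹ * Words.ln b.1 g0 s ε a' =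
        (zw b.1 (s + sg ε * a))⁻¹ * zw b.1 (s + sg ε * a') := by
      unfold Words.ln
      group
    show (av ((Words.ln b.1 g0 s ε a)⁻¹ * Words.ln b.1 g0 s ε a')).natAbs ≤ 1
    rw [h2]
    exact h1

lemma av_len {E : GH F5} {R : ℕ} (h : RW K W) (hE : CE W E R) :
    ∀ (n : ℕ) (g : F5), E.len g = n → (av g).natAbs ≤ n := by
  intro n
  induction n with
  | zero =>
    intro g hg
    rw [E.eq_one g hg, av_one]
    simp
  | succ n ih =>
    intro g hg
    obtain ⟨k, hk1, hk2⟩ := E.step g n (by omega)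
    have h1 := ih k hk1
    have h2 : E.len (k⁻¹ * g) ≤ 1 := by omega
    have h3 := av_Jm h _ ((hE.one _).mp h2)
    have h4 : av g = av k + av (k⁻¹ * g) := by
      rw [← av_mul, mul_inv_cancel_left]
    rw [h4]
    omega

/-- the closure of the letters different from `t` -/
def A0 : Subgroup F5 := Subgroup.closure {g : F5 | ∃ j : Fin 5, j ≠ 0 ∧ g = FreeGroup.of j}

lemma A0_le (W : Words (Fin 5)) (g : F5) (hg : g ∈ A0) :
    (g : F5 ⧸ W.toFam.N) ∈ Subgroup.closure (im W.toFam.N S0) := by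
  induction hg using Subgroup.closure_induction with
  | mem x hx =>
    obtain ⟨j, hj, rfl⟩ := hx
    exact Subgroup.subset_closure ⟨_, ⟨j, hj, Or.inl rfl⟩, rfl⟩
  | one =>
    rw [QuotientGroup.mk_one]
    exact Subgroup.one_mem _
  | mul x y _ _ hx hy =>
    rw [QuotientGroup.mk_mul]
    exact Subgroup.mul_mem _ hx hy
  | inv x _ hx =>
    rw [QuotientGroup.mk_inv]
    exact Subgroup.inv_mem _ hx

/-- `t^e` -/
def te (e : Bool) : F5 := FreeGroup.mk [(0, e)]

lemma te_inv (e : Bool) : (te e)⁻¹ = te (!e) := by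
  unfold te
  rw [FreeGroup.inv_mk]
  rfl

lemma conj_letter (h : RW K W) (i : Fin 5) (e : Bool) (hi : i ≠ 0) :
    ((te e : F5) : F5 ⧸ W.toFam.N) * ((FreeGroup.of i : F5) : F5 ⧸ W.toFam.N) *
      ((te e : F5) : F5 ⧸ W.toFam.N)⁻¹ ∈ Subgroup.closure (im W.toFam.N S0) := by
  obtain ⟨g, hg, hN⟩ := h.nrm i e hi
  have h1 : (FreeGroup.mk [(0, e), (i, true), (0, !e)] : F5) =
      te e * FreeGroup.of i * (te e)⁻¹ := by
    rw [te_inv]
    simp [te, FreeGroup.of, FreeGroup.mul_mk]
  rw [h1] at hN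
  have h2 := (QuotientGroup.eq_one_iff _).mpr hN
  rw [QuotientGroup.mk_mul, QuotientGroup.mk_mul, QuotientGroup.mk_mul, QuotientGroup.mk_inv] at h2
  rw [eq_inv_of_mul_eq_one_left h2]
  exact Subgroup.inv_mem _ (A0_le W g hg)

lemma conj_K1 (h : RW K W) (e : Bool) (q : F5 ⧸ W.toFam.N)
    (hq : q ∈ Subgroup.closure (im W.toFam.N S0)) :
    ((te e : F5) : F5 ⧸ W.toFam.N) * q * ((te e : F5) : F5 ⧸ W.toFam.N)⁻¹ ∈
      Subgroup.closure (im W.toFam.N S0) := by
  induction hq using Subgroup.closure_induction with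
  | mem x hx =>
    obtain ⟨g, ⟨j, hj, hg | hg⟩, rfl⟩ := hx
    · subst hg
      exact conj_letter h j e hj
    · subst hg
      have h1 := Subgroup.inv_mem _ (conj_letter h j e hj)
      simp only [QuotientGroup.mk_inv]
      convert h1 using 1
      group
  | one =>
    rw [mul_one, mul_inv_cancel]
    exact Subgroup.one_mem _
  | mul x y _ _ hx hy =>
    have h1 := Subgroup.mul_mem _ hx hy
    convert h1 using 1
    group
  | inv x _ hx =>
    have h1 := Subgroup.inv_mem _ hx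
    convert h1 using 1
    group

lemma conj_pow (h : RW K W) (e : Bool) (n : ℕ) (q : F5 ⧸ W.toFam.N)
    (hq : q ∈ Subgroup.closure (im W.toFam.N S0)) :
    ((te e : F5) : F5 ⧸ W.toFam.N) ^ n * q * (((te e : F5) : F5 ⧸ W.toFam.N) ^ n)⁻¹ ∈
      Subgroup.closure (im W.toFam.N S0) := by
  induction n with
  | zero => simpa using hq
  | succ n ih =>
    have h1 := conj_K1 h e _ ih
    convert h1 using 1
    rw [pow_succ']
    group

lemma conj_zpow (h : RW K W) (m : ℤ) (q : F5 ⧸ W.toFam.N)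
    (hq : q ∈ Subgroup.closure (im W.toFam.N S0)) :
    ((te true : F5) : F5 ⧸ W.toFam.N) ^ m * q * (((te true : F5) : F5 ⧸ W.toFam.N) ^ m)⁻¹ ∈
      Subgroup.closure (im W.toFam.N S0) := by
  have h0 : ((te false : F5) : F5 ⧸ W.toFam.N) = ((te true : F5) : F5 ⧸ W.toFam.N)⁻¹ := by
    rw [← QuotientGroup.mk_inv, te_inv]
    rfl
  rcases Int.eq_nat_or_neg m with ⟨n, rfl | rfl⟩
  · have h1 := conj_pow h true n q hq
    rwa [zpow_natCast]
  · have h1 := conj_pow h false n q hq
    rw [h0] at h1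
    rw [zpow_neg, zpow_natCast, ← inv_pow]
    exact h1

lemma rep (h : RW K W) (g : F5) :
    (g : F5 ⧸ W.toFam.N) * ((te true : F5) : F5 ⧸ W.toFam.N) ^ (-(av g)) ∈
      Subgroup.closure (im W.toFam.N S0) := by
  induction g using FreeGroup.induction_on with
  | C1 =>
    rw [av_one]
    simp
  | of i =>
    rw [av_of]
    split_ifs with hi
    · subst hi
      have : (FreeGroup.of (0 : Fin 5) : F5) = te true := rfl
      rw [this]
      simp
    · rw [neg_zero, zpow_zero, mul_one]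
      exact Subgroup.subset_closure ⟨_, ⟨i, hi, Or.inl rfl⟩, rfl⟩
  | inv_of i ih =>
    rw [av_inv, neg_neg, QuotientGroup.mk_inv]
    have h1 := conj_zpow h (-(av (FreeGroup.of i))) _ (Subgroup.inv_mem _ ih)
    convert h1 using 1
    group
  | mul x y hx hy =>
    rw [av_mul, QuotientGroup.mk_mul]
    have h1 := conj_zpow h (av x) _ hy
    have h2 := Subgroup.mul_mem _ hx h1
    convert h2 using 1
    group

theorem t : S_RB7 := by
  intro K W E R Q h hE hQ
  have hker : ∀ x ∈ W.toFam.N, ft x = 1 := fun x hx => av_N h x hx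
  refine ⟨QuotientGroup.lift W.toFam.N ft hker, fun g => rfl, ?_, ?_, ?_⟩
  · intro q
    obtain ⟨g, rfl, hg⟩ := hQ.lift q
    rw [← hg]
    exact av_len h hE _ g rfl
  · intro q
    obtain ⟨g, rfl, -⟩ := hQ.lift q
    constructor
    · intro hf
      have h1 : av g = 0 := (av_eq_zero_iff g).mpr hf
      have h2 := rep h g
      rw [h1, neg_zero, zpow_zero, mul_one] at h2
      exact h2
    · intro hg
      have h1 : Subgroup.closure (im W.toFam.N S0) ≤
          (QuotientGroup.lift W.toFam.N ft hker).ker := by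
        rw [Subgroup.closure_le]
        rintro _ ⟨g, ⟨j, hj, hg | hg⟩, rfl⟩
        · subst hg
          show ft (FreeGroup.of j) = 1
          rw [← av_eq_zero_iff, av_of, if_neg hj]
        · subst hg
          show ft (FreeGroup.of j)⁻¹ = 1
          rw [← av_eq_zero_iff, av_inv, av_of, if_neg hj, neg_zero]
      exact MonoidHom.mem_ker.mp (h1 hg)
  · rintro _ ⟨g, ⟨j, hj, hg⟩, rfl⟩
    refine (hQ.le g).trans ((hE.le g).trans ?_)
    rcases hg with rfl | rfl
    · rw [FreeGroup.norm_of]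
    · rw [FreeGroup.norm_inv_eq, FreeGroup.norm_of]

end Pool.Agent.Y415.RN
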